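import Pool.Agent.TH310.EndoPerm

/-!
Permanence of all variable-k endotactic systems, in every dimension (the extended permanence
property), with weakly reversible systems as a special case.
-/

set_option autoImplicit false

namespace Pool.Agent.Results.MP_210c79_an.ExtendedPermanence

/-- The right-hand side of the system generated by the edge set `E` (an edge is a pair
(source, target) of real vectors) with the rates `k`, at the point `x`. -/
noncomputable def field {n : ℕ} (E : Finset ((Fin n → ℝ) × (Fin n → ℝ)))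
    (k : (Fin n → ℝ) × (Fin n → ℝ) → ℝ) (x : Fin n → ℝ) : Fin n → ℝ :=
  ∑ e ∈ E, (k e * ∏ i, x i ^ (e.1 i)) • (e.2 - e.1)

/-- Every edge of `E` lies on a directed cycle: its source can be reached from its target. -/
def WeaklyReversible {n : ℕ} (E : Finset ((Fin n → ℝ) × (Fin n → ℝ))) : Prop :=
  ∀ e ∈ E, Relation.ReflTransGen (fun u v => (u, v) ∈ E) e.2 e.1

/-- For every `w` and every edge `s → s'` with `w ⬝ (s' - s) < 0` there is an edge `t → t'` with
`w ⬝ (t' - t) > 0` and `w ⬝ t < w ⬝ s`. -/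
def Endotactic {n : ℕ} (E : Finset ((Fin n → ℝ) × (Fin n → ℝ))) : Prop :=
  ∀ w : Fin n → ℝ, ∀ e ∈ E, ∑ j, w j * (e.2 j - e.1 j) < 0 →
    ∃ e' ∈ E, 0 < ∑ j, w j * (e'.2 j - e'.1 j) ∧ ∑ j, w j * e'.1 j < ∑ j, w j * e.1 j

/-- `x` is a solution on `J` of the variable-`k` system: positive, absolutely continuous on the
compact subintervals, and satisfying the differential equation at almost every time of `J`. -/
structure IsSolution {n : ℕ} (E : Finset ((Fin n → ℝ) × (Fin n → ℝ)))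
    (k : (Fin n → ℝ) × (Fin n → ℝ) → ℝ → ℝ) (x : ℝ → Fin n → ℝ) (J : Set ℝ) : Prop where
  pos : ∀ t ∈ J, ∀ i, 0 < x t i
  ac : ∀ a ∈ J, ∀ b ∈ J, a ≤ b → AbsolutelyContinuousOnInterval x a b
  ode : ∀ᵐ t, t ∈ J → HasDerivAt x (field E (fun e => k e t) (x t)) t

/-- The class of `x₀`: the positive vectors `z` with `z - x₀` in the span of the edge vectors. -/
def compatClass {n : ℕ} (E : Finset ((Fin n → ℝ) × (Fin n → ℝ))) (x₀ : Fin n → ℝ) :
    Set (Fin n → ℝ) :=
  {z | (∀ i, 0 < z i) ∧ z - x₀ ∈ Submodule.span ℝ {v | ∃ e ∈ E, v = e.2 - e.1}}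

/-- Let `E` be a finite set of edges in `ℝⁿ` which is weakly reversible or, more generally,
endotactic, let `ε > 0` and `x₀ > 0`.  There is one compact subset `M` of the class of `x₀` such
that, for all measurable rates with values in `[ε, 1/ε]` (in particular for constant rates), from
every point `z` of the class there starts exactly one solution, it is defined for all positive
times, stays in the class and is eventually in `M`. -/
theorem result (n : ℕ) (E : Finset ((Fin n → ℝ) × (Fin n → ℝ)))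
    (hE : WeaklyReversible E ∨ Endotactic E) (ε : ℝ) (hε : 0 < ε) (x₀ : Fin n → ℝ)
    (hx₀ : ∀ i, 0 < x₀ i) :
    ∃ M : Set (Fin n → ℝ), IsCompact M ∧ M ⊆ compatClass E x₀ ∧
      ∀ k : (Fin n → ℝ) × (Fin n → ℝ) → ℝ → ℝ, (∀ e ∈ E, Measurable (k e)) →
        (∀ e ∈ E, ∀ t : ℝ, ε ≤ k e t ∧ k e t ≤ 1 / ε) →
        ∀ z ∈ compatClass E x₀, ∃ y : ℝ → Fin n → ℝ, y 0 = z ∧ IsSolution E k y (Set.Ici 0) ∧
          (∀ (J : Set ℝ) (x : ℝ → Fin n → ℝ), J.OrdConnected → (0 : ℝ) ∈ J → J ⊆ Set.Ici 0 →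
            IsSolution E k x J → x 0 = z → ∀ t ∈ J, x t = y t) ∧
          (∀ t, 0 ≤ t → y t ∈ compatClass E x₀) ∧ ∃ t₀ : ℝ, ∀ t, t₀ < t → y t ∈ M := by
  have hP : TH310.Endo.EndoP E := by
    rcases hE with h | h
    · exact TH310.Endo.EndoP_of_wr E h
    · exact TH310.Endo.EndoP_of E h
  obtain ⟨K, hK, hKc, H⟩ := TH310.Endo.perm_endo E hP ε hε x₀ hx₀
  refine ⟨K, hK, hKc, fun k hkm hk z hz => ?_⟩
  obtain ⟨y, hy0, hy, hu, hc, he⟩ := H k hkm hk z hz
  exact ⟨y, hy0, ⟨hy.pos, hy.ac, hy.ode⟩,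
    fun J x hJ h0 hJ0 hx hx0 => hu J x hJ h0 hJ0 ⟨hx.pos, hx.ac, hx.ode⟩ hx0, hc, he⟩

end Pool.Agent.Results.MP_210c79_an.ExtendedPermanence
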